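import Pool.Agent.Lib.MP_63bd8a_pr.DenTail

set_option autoImplicit false
open MeasureTheory ProbabilityTheory Filter Topology

namespace Pool.Agent.Results.MP_63bd8a_pr.DensityTail

/-- the local slope of `f` at `x` -/
noncomputable def grad {n : ℕ} (f : EuclideanSpace ℝ (Fin n) → ℝ) (x : EuclideanSpace ℝ (Fin n)) :
    ENNReal :=
  limsup (fun y => ‖f y - f x‖ₑ / ‖y - x‖ₑ) (𝓝[≠] x)

/-- the convex Poincare inequality with constant `l` -/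
def CP {n : ℕ} (μ : Measure (EuclideanSpace ℝ (Fin n))) (l : ℝ) : Prop :=
  ∀ f : EuclideanSpace ℝ (Fin n) → ℝ, ConvexOn ℝ Set.univ f → (∃ L, LipschitzWith L f) →
    evariance f μ ≤ ENNReal.ofReal (1 / l) * ∫⁻ x, grad f x ^ 2 ∂μ

/-- `m` is a median of `f` under `μ` -/
def IsMed {n : ℕ} (μ : Measure (EuclideanSpace ℝ (Fin n))) (f : EuclideanSpace ℝ (Fin n) → ℝ)
    (m : ℝ) : Prop :=
  1 / 2 ≤ μ {x | m ≤ f x} ∧ 1 / 2 ≤ μ {x | f x ≤ m}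

theorem result (l t : ℝ) (hl : 0 < l) (ht : 0 < t) :
    ∃ (n : ℕ) (μ : Measure (EuclideanSpace ℝ (Fin n))) (f : EuclideanSpace ℝ (Fin n) → ℝ)
      (a : ℝ) (c C : ENNReal), IsProbabilityMeasure μ ∧ 0 < a ∧ c ≠ 0 ∧ C ≠ ⊤ ∧
      (∀ A, MeasurableSet A → c * volume (A ∩ {x | ∀ i, |x i| ≤ a}) ≤ μ A ∧
        μ A ≤ C * volume (A ∩ {x | ∀ i, |x i| ≤ a})) ∧
      CP μ l ∧ ConvexOn ℝ Set.univ f ∧ LipschitzWith 1 f ∧ (∃ m, IsMed μ f m) ∧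
      ∀ m, IsMed μ f m → ENNReal.ofReal (1 / (200 * l * t ^ 2 + 300)) ≤ μ {x | f x ≤ m - t} := by
  obtain ⟨n, a, hn, ha, h1, h2⟩ := Pool.Agent.Lib.MP_63bd8a_pr.dens_tail l t hl ht
  obtain ⟨c, C, h3, h4, h5⟩ := Pool.Agent.Lib.MP_63bd8a_pr.dens_mix hn ha
  have := Pool.Agent.Lib.MP_63bd8a_pr.isProb_mix (show 1 ≤ n by omega) a
  refine ⟨n, _, fun x => ‖x‖, a, c, C, this, ha, h3, h4, h5, fun g hg hL => ?_,
    convexOn_univ_norm, lipschitzWith_one_norm,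
    Pool.Agent.Lib.MP_63bd8a_pr.exists_median _ measurable_norm, fun m hm => h2 m hm.2⟩
  obtain ⟨L, hL⟩ := hL
  simp only [grad, Pool.Agent.Lib.MP_63bd8a_pr.slope_eq, ← h1]
  exact Pool.Agent.Lib.MP_63bd8a_pr.cp_mix hn ha g hg hL.continuous

end Pool.Agent.Results.MP_63bd8a_pr.DensityTail
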